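import Pool.Agent.Results.MP_387a72_lc.BorelReduction
import Pool.Agent.Y421.OR.A

set_option autoImplicit false

/-!
# Convex bi-embeddability is Borel reducible to an orbit equivalence relation

Positive answer to Q2 (and Q1): the Polish group is the group `S_∞` of the permutations of `ℕ`
(with the topology of pointwise convergence of the permutations and their inverses), acting on the
Polish space `LO` by the logic action; its orbits are the isomorphism classes.
-/

namespace Pool.Agent.Results.MP_387a72_lc.OrbitReduction

open Pool.Agent.W919.CB

/-- `G`, with the given action on the space `LO` of the codes of linear orders, is a Polish group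
acting continuously on a Polish space, and the orbit equivalence relation is isomorphism. -/
def IsPolishActionWithOrbitsIso (G : Type) [Group G] [TopologicalSpace G] [MulAction G LO] :
    Prop :=
  IsTopologicalGroup G ∧ PolishSpace G ∧ PolishSpace LO ∧ ContinuousSMul G LO ∧
    ∀ x y : LO, IsoLO x y ↔ ∃ g : G, g • x = y

/-- `h` is a Borel reduction of convex bi-embeddability to the orbit equivalence relation of the
action of `G` on `LO`. -/
def IsBorelReductionToOrbits (G : Type) [Group G] [MulAction G LO] (h : LO → LO) : Prop :=
  @Measurable LO LO (borel LO) (borel LO) h ∧ ∀ x y : LO, BiEmb x y ↔ ∃ g : G, g • h x = h y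

/-- There are a Polish group `G`, a continuous action of `G` on the Polish space `LO` whose orbit
equivalence relation is isomorphism, and a Borel map `h : LO → LO` such that `x` and `y` are
convexly bi-embeddable if and only if `h x` and `h y` are in the same orbit. -/
theorem result : ∃ (G : Type) (_ : Group G) (_ : TopologicalSpace G) (_ : MulAction G LO),
    IsPolishActionWithOrbitsIso G ∧ ∃ h : LO → LO, IsBorelReductionToOrbits G h := by
  obtain ⟨h, hm, hh⟩ := Pool.Agent.Results.MP_387a72_lc.BorelReduction.result
  refine ⟨Pool.Agent.Y421.OR.SInf, inferInstance, inferInstance, inferInstance,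
    ⟨inferInstance, inferInstance, Pool.Agent.Y421.OR.polish_LO, inferInstance,
      Pool.Agent.Y421.OR.iso_iff⟩, h, hm, fun x y => ?_⟩
  rw [hh x y, Pool.Agent.Y421.OR.iso_iff]

end Pool.Agent.Results.MP_387a72_lc.OrbitReduction
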